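import Mathlib
import Pool.Agent.FFT.StmtDefs
import Pool.Agent.FFT.Final

/-!
# Firefighter on trees: which of the three parameterized problems are subexponential?
-/

set_option autoImplicit false

namespace Pool.Agent.Results.MP_4a4383_lc.FirefighterTrees

open Pool.Agent.FFT Pool.Agent.CDom

open Classical in
/-- **Main theorem.** (1) Saving `k` vertices of a tree with `n` vertices is decided by a Turing
machine within `2 ^ (C (√k + 1)) (n + 1) ^ C` steps.  (2), (3) If saving all but `k` vertices, or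
maximum `k`-vertex protection, on trees is decided within `2 ^ o(k) (n + 1) ^ c` steps, then the
Exponential Time Hypothesis fails. -/
theorem result :
    (∃ (T : Turing.FinTM2) (i : T.Γ T.k₀ ≃ Bool) (o : T.Γ T.k₁ ≃ Bool) (C : ℕ),
      ∀ (n : ℕ) (G : SimpleGraph (Fin n)) (s : Fin n) (k : ℕ), G.IsTree →
        Outputs T i o (word3 G s k) [decide (Saving G s k)]
          (2 ^ (C * (Nat.sqrt k + 1)) * (n + 1) ^ C)) ∧
    (∀ (f : ℕ → ℕ), LittleO f → ∀ (c : ℕ) (T : Turing.FinTM2) (i : T.Γ T.k₀ ≃ Bool)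
      (o : T.Γ T.k₁ ≃ Bool),
      (∀ (n : ℕ) (G : SimpleGraph (Fin n)) (s : Fin n) (k : ℕ), G.IsTree → k ≤ n →
        Outputs T i o (word3 G s k) [decide (SavingAllBut G s k)] (2 ^ f k * (n + 1) ^ c)) →
      ETHFails) ∧
    (∀ (f : ℕ → ℕ), LittleO f → ∀ (c : ℕ) (T : Turing.FinTM2) (i : T.Γ T.k₀ ≃ Bool)
      (o : T.Γ T.k₁ ≃ Bool),
      (∀ (n : ℕ) (G : SimpleGraph (Fin n)) (s : Fin n) (k K : ℕ), G.IsTree → k ≤ n → K ≤ n →
        Outputs T i o (word4 G s k K) [decide (MaxProt G s k K)] (2 ^ f k * (n + 1) ^ c)) →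
      ETHFails) :=
  ⟨saving_machine, fun f hf c T i o h => allBut_hard f hf c T i o h,
    fun f hf c T i o h => maxProt_hard f hf c T i o h⟩

end Pool.Agent.Results.MP_4a4383_lc.FirefighterTrees
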